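import Pool.Agent.N356.SP.DefsK
import Pool.Agent.N765.LS.Func
import Pool.Agent.N835.LS.Main

set_option autoImplicit false

/-!
GK16b (project LK of helper356): the induction.  Adapted from `Pool.Agent.N835.LS.Main` by helper768.
-/

namespace Pool.Agent.N768.LK

open Finset Pool.Agent.H384R3.SPk Pool.Agent.N356.SP Pool.Agent.N356.SP.LS15
open Pool.Agent.N765.LS (S_sub one_le_S)

theorem monoK_sub {k : ℕ} {A B : Finset ℤ} (h : MonoK k A) (hB : B ⊆ A) : MonoK k B :=
  fun q hq hq' a ha b hb => h q hq hq' a (hB ha) b (hB hb)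

/-- the induction, from the elementary properties of the functional -/
theorem main_genK_of
    (hsub : ∀ {k : ℕ}, 1 ≤ k → ∀ {A' A : Finset ℤ}, A' ⊆ A → (∀ a ∈ A, 0 < a) → S k A' ≤ S k A)
    (hone : ∀ {k : ℕ}, 1 ≤ k → ∀ {A : Finset ℤ}, A.Nonempty → (∀ a ∈ A, 0 < a) → 1 ≤ S k A)
    {k n : ℕ} (hk : 1 ≤ k) (hn : 2 ≤ n) {b : ℝ} (hb : 0 < b) {B : ℝ → ℝ} {t₀ : ℝ}
    (_ht₀ : 0 ≤ t₀) (hS : SplitK k B t₀) (hR : RealOK n b B t₀)
    (A : Fin n → Finset ℤ) (hA : ∀ i, (A i).Nonempty) (hAp : ∀ i, ∀ a ∈ A i, 0 < a)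
    (hM : ∀ i, MonoK k (A i)) :
    ∏ i, (((A i).card : ℝ) ^ (1 + b) / S k (A i) ^ 2) ^ (1 / ((n : ℝ) * b)) ≤
      ((prodset A).card : ℝ) := by
  classical
  have hn1 : 1 ≤ n := by omega
  set P : Finset ℤ → ℝ := fun A => if MonoK k A then q n b (A.card : ℝ) (S k A ^ 2) else 0 with hP
  have hP0 : ∀ A, 0 ≤ P A := by
    intro A
    simp only [hP]
    split_ifs
    · exact q_nonneg n b (Nat.cast_nonneg _) (sq_nonneg _)
    · exact le_rfl
  have hPM : ∀ A, MonoK k A → P A = q n b (A.card : ℝ) (S k A ^ 2) := by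
    intro A h
    simp only [hP]
    rw [if_pos h]
  have hmain := taskD n hn1 P hP0 (by
    intro p A A₀ A' j hp hA0 hne0 hne' hdisj hun hv0 hv'
    by_cases hMA : MonoK k A
    · have s0 : A₀ ⊆ A := by rw [← hun]; exact Finset.subset_union_left
      have s1 : A' ⊆ A := by rw [← hun]; exact Finset.subset_union_right
      rw [hPM A hMA, hPM A₀ (monoK_sub hMA s0), hPM A' (monoK_sub hMA s1)]
      have hcard : (A.card : ℝ) = A₀.card + A'.card := by
        rw [← hun, Finset.card_union_of_disjoint hdisj]; push_cast; ring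
      have r0 := hone hk hne0 fun a ha => hA0 a (s0 ha)
      have r1 := hone hk hne' fun a ha => hA0 a (s1 ha)
      have rA := hone hk (hne0.mono s0) hA0
      have hle := hsub hk s0 hA0
      have hρ : 0 < S k A := by linarith
      have hRR := hR ((S k A' / S k A) ^ 2) ((S k A₀ / S k A) ^ 2) (by positivity) (by positivity)
        (by
          rw [sq_le_one_iff₀ (by positivity), div_le_one hρ]
          exact hle)
        (by
          intro t ht0 ht1
          have h := hS p j A A₀ A' hMA ⟨hp, hA0, hne0, hne', hdisj, hun, hv0, hv'⟩ t ht0 ht1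
          rw [Real.sqrt_sq (by positivity), Real.sqrt_sq (by positivity)]
          have e : S k A' / S k A + t * (S k A₀ / S k A) = (S k A' + t * S k A₀) / S k A := by
            field_simp
          rw [e, div_le_iff₀ hρ]
          linarith [mul_comm (S k A) (B t)])
      rw [hcard]
      refine os3 hn hb (by exact_mod_cast hne0.card_pos) (by exact_mod_cast hne'.card_pos)
        (by positivity) (by positivity) (pow_le_pow_left₀ (by linarith) hle 2) ?_
      intro u hu0 hu1
      have h := hRR u hu0 hu1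
      rwa [div_pow, div_pow] at h
    · have e : P A = 0 := by
        simp only [hP]
        rw [if_neg hMA]
      rw [e, zero_pow (by omega), zero_pow (by omega), mul_zero, add_zero]
      exact pow_nonneg (hP0 _) _) (by
    intro a ha
    by_cases hMA : MonoK k {a}
    · rw [hPM _ hMA]
      have h1 := hone hk (Finset.singleton_nonempty a) fun x hx => by
        rw [Finset.mem_singleton] at hx; rw [hx]; exact ha
      have h2 : (({a} : Finset ℤ).card : ℝ) ^ (1 + b) / S k {a} ^ 2 ≤ 1 := by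
        rw [Finset.card_singleton, Nat.cast_one, Real.one_rpow, div_le_one (by positivity)]
        nlinarith
      have h0 : 0 ≤ (({a} : Finset ℤ).card : ℝ) ^ (1 + b) / S k {a} ^ 2 :=
        div_nonneg (Real.rpow_nonneg (Nat.cast_nonneg _) _) (sq_nonneg _)
      exact Real.rpow_le_one h0 h2 (by positivity)
    · simp only [hP]
      rw [if_neg hMA]
      exact zero_le_one) A hA hAp
  refine le_trans (le_of_eq ?_) hmain
  refine Finset.prod_congr rfl fun i _ => ?_
  rw [hPM _ (hM i)]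
  rfl

/-- GK16b: the induction -/
theorem main_genK {k n : ℕ} (hk : 1 ≤ k) (hn : 2 ≤ n) {b : ℝ} (hb : 0 < b) {B : ℝ → ℝ} {t₀ : ℝ}
    (ht₀ : 0 ≤ t₀) (hS : SplitK k B t₀) (hR : RealOK n b B t₀)
    (A : Fin n → Finset ℤ) (hA : ∀ i, (A i).Nonempty) (hAp : ∀ i, ∀ a ∈ A i, 0 < a)
    (hM : ∀ i, MonoK k (A i)) :
    ∏ i, (((A i).card : ℝ) ^ (1 + b) / S k (A i) ^ 2) ^ (1 / ((n : ℝ) * b)) ≤
      ((prodset A).card : ℝ) :=
  main_genK_of (fun hk _ _ hs hp => S_sub hk hs hp) (fun hk _ hA hp => one_le_S hk hA hp)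
    hk hn hb ht₀ hS hR A hA hAp hM

end Pool.Agent.N768.LK
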